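import Mathlib
import Pool.Agent.Helper249.RC.Defs

set_option autoImplicit false

/-!
The Haar measure of an uncountable power of the two element group does not have metrizable-like
support, and the corresponding compact sets of functions.
-/

open MeasureTheory Set Filter Topology
open scoped ENNReal

universe u v

namespace Pool.Agent.Y586.RC

open Pool.Agent.Helper249.RC

section cube

variable {D : Type u}

/-- The cube. -/
abbrev Cube (D : Type u) : Type u := D → ZMod 2

/-- The coordinate half of the cube. -/
def half (d : D) (c : ZMod 2) : Set (Cube D) := {x | x d = c}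

theorem isClopen_half (d : D) (c : ZMod 2) : IsClopen (half d c) := by
  have h : half d c = (fun x : Cube D => x d) ⁻¹' {c} := rfl
  rw [h]
  exact (isClopen_discrete {c}).preimage (continuous_apply d)

variable [MeasurableSpace (Cube D)] [BorelSpace (Cube D)]

theorem measurable_half (d : D) (c : ZMod 2) : MeasurableSet (half d c) :=
  (isClopen_half d c).isOpen.measurableSet

theorem zmod_ne_iff : ∀ c y : ZMod 2, ¬ y = c ↔ y = c + 1 := by
  decide

theorem zmod_cases (c x : ZMod 2) : x = c ∨ x = c + 1 := by
  revert c x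
  decide

theorem measure_inter_half (μ : Measure (Cube D)) [μ.IsAddLeftInvariant] (d : D) (c : ZMod 2)
    (A : Set (Cube D)) (hA : ∀ x : Cube D, ∀ y : Cube D, (∀ e, e ≠ d → x e = y e) → x ∈ A → y ∈ A) :
    2 * μ (A ∩ half d c) = μ A := by
  classical
  set g : Cube D := Pi.single d 1 with hg
  have h1 : (fun x => g + x) ⁻¹' (A ∩ half d c) = A ∩ half d (c + 1) := by
    ext x
    have hx1 : (g + x ∈ A) ↔ x ∈ A := by
      constructor
      · intro h
        refine hA _ _ (fun e he => ?_) h
        simp [hg, Pi.single_eq_of_ne he]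
      · intro h
        refine hA _ _ (fun e he => ?_) h
        simp [hg, Pi.single_eq_of_ne he]
    have hx2 : (g + x ∈ half d c) ↔ x ∈ half d (c + 1) := by
      show (g + x) d = c ↔ x d = c + 1
      have : (g + x) d = 1 + x d := by simp [hg]
      rw [this]
      generalize x d = y
      revert c y
      decide
    show (g + x ∈ A ∧ g + x ∈ half d c) ↔ (x ∈ A ∧ x ∈ half d (c + 1))
    rw [hx1, hx2]
  have h2 : μ (A ∩ half d (c + 1)) = μ (A ∩ half d c) := by
    rw [← h1]
    exact measure_preimage_add μ g _
  have h3 : A \ half d c = A ∩ half d (c + 1) := by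
    ext x
    show (x ∈ A ∧ ¬ x d = c) ↔ (x ∈ A ∧ x d = c + 1)
    rw [zmod_ne_iff]
  have h4 := measure_inter_add_sdiff (μ := μ) A (measurable_half d c)
  rw [h3, h2] at h4
  rw [two_mul, h4]

theorem measure_iInter_half (μ : Measure (Cube D)) [μ.IsAddLeftInvariant] [IsProbabilityMeasure μ]
    (d : ℕ → D) (hd : Function.Injective d) (c : D → ZMod 2) (n : ℕ) :
    2 ^ n * μ (⋂ i ∈ Finset.range n, half (d i) (c (d i))) = 1 := by
  induction n with
  | zero => simp
  | succ n ih =>
    rw [← ih, pow_succ, mul_assoc]
    congr 1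
    rw [Finset.range_add_one, Finset.set_biInter_insert, inter_comm]
    refine measure_inter_half μ (d n) (c (d n)) _ ?_
    intro x y hxy hx
    simp only [mem_iInter, Finset.mem_range] at hx ⊢
    intro i hi
    show y (d i) = c (d i)
    rw [← hxy (d i) (fun h => absurd (hd h) hi.ne)]
    exact hx i hi

theorem measure_zero (μ : Measure (Cube D)) [μ.IsAddLeftInvariant] [IsProbabilityMeasure μ]
    {S : Set D} (hS : S.Infinite) (c : D → ZMod 2) (A : Set (Cube D))
    (hA : ∀ d ∈ S, A ⊆ half d (c d)) : μ A = 0 := by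
  set d := hS.natEmbedding S with hd
  by_contra hne
  have hpos : 0 < μ A := pos_iff_ne_zero.2 hne
  have h1 : ∀ n : ℕ, 2 ^ n * μ A ≤ 1 := by
    intro n
    rw [← measure_iInter_half μ (fun i => (d i : D)) (fun i j h => d.injective (Subtype.ext h)) c n]
    gcongr
    intro x hx
    simp only [mem_iInter]
    intro i _
    exact hA _ (d i).2 hx
  have hfin : μ A ≠ ∞ := measure_ne_top μ A
  obtain ⟨n, hn⟩ := exists_nat_gt (μ A).toReal⁻¹
  have h2 : (2 : ℝ) ^ n * (μ A).toReal ≤ 1 := by
    have := ENNReal.toReal_mono ENNReal.one_ne_top (h1 n)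
    rwa [ENNReal.toReal_mul, ENNReal.toReal_pow, ENNReal.toReal_ofNat, ENNReal.toReal_one] at this
  have h3 : 0 < (μ A).toReal := ENNReal.toReal_pos hne hfin
  have h4 : (n : ℝ) < 2 ^ n := by exact_mod_cast Nat.lt_two_pow_self
  have h5 : 1 < (2 : ℝ) ^ n * (μ A).toReal := by
    calc (1 : ℝ) = (μ A).toReal⁻¹ * (μ A).toReal := by field_simp
      _ < n * (μ A).toReal := by gcongr
      _ < 2 ^ n * (μ A).toReal := by gcongr
  linarith

end cube

/-- The set of all functions on `X` which are indicator functions of subsets of `D`. -/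
def ind {X : Type u} (D : Set X) : Set (X → ℝ) := {f | ∃ A ⊆ D, f = A.indicator 1}

open Classical in
/-- The function on `X` of a point of the cube. -/
noncomputable def toFun {X : Type u} (D : Set X) (x : Cube D) : X → ℝ := fun t =>
  if h : t ∈ D then (if x ⟨t, h⟩ = 1 then 1 else 0) else 0

theorem continuous_toFun {X : Type u} (D : Set X) : Continuous (toFun D) := by
  classical
  refine continuous_pi fun t => ?_
  by_cases h : t ∈ D
  · have : (fun x : Cube D => toFun D x t) =
        (fun c : ZMod 2 => if c = 1 then (1 : ℝ) else 0) ∘ (fun x : Cube D => x ⟨t, h⟩) := by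
      funext x
      simp [toFun, h]
    rw [this]
    exact continuous_of_discreteTopology.comp (continuous_apply _)
  · have : (fun x : Cube D => toFun D x t) = fun _ => (0 : ℝ) := by
      funext x
      simp [toFun, h]
    rw [this]
    exact continuous_const

theorem injective_toFun {X : Type u} (D : Set X) : Function.Injective (toFun D) := by
  classical
  intro x y h
  funext d
  have h1 := congrFun h d.1
  simp only [toFun, d.2, dite_true] at h1
  have hd : (⟨d.1, d.2⟩ : D) = d := rfl
  rw [hd] at h1
  rcases zmod_cases 0 (x d) with hx | hx <;> rcases zmod_cases 0 (y d) with hy | hy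
  · rw [hx, hy]
  · rw [hx, hy] at h1
    norm_num at h1
  · rw [hx, hy] at h1
    norm_num at h1
  · rw [hx, hy]

theorem range_toFun {X : Type u} (D : Set X) : range (toFun D) = ind D := by
  classical
  ext f
  constructor
  · rintro ⟨x, rfl⟩
    refine ⟨{t | ∃ h : t ∈ D, x ⟨t, h⟩ = 1}, fun t ht => ht.1, ?_⟩
    funext t
    by_cases h : t ∈ D
    · by_cases h2 : x ⟨t, h⟩ = 1
      · simp [toFun, indicator, h, h2]
      · simp [toFun, indicator, h, h2]
    · simp [toFun, indicator, h]
  · rintro ⟨A, hA, rfl⟩
    refine ⟨fun d => if d.1 ∈ A then 1 else 0, ?_⟩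
    funext t
    by_cases h : t ∈ D
    · by_cases h2 : t ∈ A
      · simp [toFun, indicator, h, h2]
      · simp [toFun, indicator, h, h2]
    · have h2 : t ∉ A := fun h2 => h (hA h2)
      simp [toFun, indicator, h, h2]

theorem isCompact_ind {X : Type u} (D : Set X) : IsCompact (ind D) := by
  rw [← range_toFun]
  exact isCompact_range (continuous_toFun D)

/-- The homeomorphism. -/
noncomputable def homeo {X : Type u} (D : Set X) : Cube D ≃ₜ range (toFun D) :=
  ((continuous_toFun D).isClosedEmbedding (injective_toFun D)).isEmbedding.toHomeomorph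

theorem homeo_val {X : Type u} (D : Set X) (x : Cube D) : (homeo D x).1 = toFun D x := rfl

theorem not_classS_range {X : Type u} (D : Set X) (hD : ¬ D.Countable) :
    ¬ ClassS (range (toFun D)) := by
  classical
  intro hK
  obtain ⟨-, -, hK⟩ := hK
  letI : MeasurableSpace (Cube D) := borel _
  haveI : BorelSpace (Cube D) := ⟨rfl⟩
  letI : MeasurableSpace (range (toFun D)) := borel _
  haveI : BorelSpace (range (toFun D)) := ⟨rfl⟩
  let K₀ : TopologicalSpace.PositiveCompacts (Cube D) := ⊤
  let μ : Measure (Cube D) := Measure.addHaarMeasure K₀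
  haveI : IsProbabilityMeasure μ := ⟨by
    have h := Measure.addHaarMeasure_self (K₀ := K₀)
    rwa [TopologicalSpace.PositiveCompacts.coe_top] at h⟩
  let h := homeo D
  let ν : Measure (range (toFun D)) := μ.map h
  haveI : IsProbabilityMeasure ν := Measure.isProbabilityMeasure_map h.continuous.measurable.aemeasurable
  haveI : ν.Regular := Measure.Regular.map h
  obtain ⟨A, hA1, hA2, hA3, hA4⟩ := hK ν inferInstance inferInstance
  have hsel : ∀ d : D, ∃ i, (∀ a ∈ A i, ∃ c : ZMod 2, h ⁻¹' a ⊆ half d c) ∧
      ν (⋃₀ A i)ᶜ < ENNReal.ofReal (1 / 2) := by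
    intro d
    have ho : ∀ u ∈ ({h '' half d 0, h '' half d 1} : Set (Set (range (toFun D)))), IsOpen u := by
      rintro u (rfl | hu)
      · exact h.isOpenMap _ (isClopen_half d 0).isOpen
      · rw [mem_singleton_iff] at hu
        subst hu
        exact h.isOpenMap _ (isClopen_half d 1).isOpen
    have hun : ⋃₀ ({h '' half d 0, h '' half d 1} : Set (Set (range (toFun D)))) = univ := by
      rw [sUnion_insert, sUnion_singleton, ← image_union]
      have : half d 0 ∪ half d 1 = (univ : Set (Cube D)) := by
        ext x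
        simp only [mem_union, mem_univ, iff_true]
        exact zmod_cases 0 (x d)
      rw [this, image_univ]
      exact h.surjective.range_eq
    obtain ⟨i, hi1, hi2⟩ := hA4 _ ho hun (1 / 2) (by norm_num)
    refine ⟨i, fun a ha => ?_, hi2⟩
    obtain ⟨u, hu, hau⟩ := hi1 a ha
    rcases hu with rfl | hu
    · refine ⟨0, ?_⟩
      intro x hx
      obtain ⟨y, hy, hyx⟩ := hau hx
      rwa [← h.injective hyx]
    · rw [mem_singleton_iff] at hu
      subst hu
      refine ⟨1, ?_⟩
      intro x hx
      obtain ⟨y, hy, hyx⟩ := hau hx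
      rwa [← h.injective hyx]
  choose i hi using hsel
  have huncD : Uncountable D := by
    rw [← not_countable_iff]
    intro hc
    exact hD (countable_coe_iff.1 hc)
  obtain ⟨n, hn⟩ : ∃ n : ℕ, (i ⁻¹' {n}).Infinite := by
    by_contra hcon
    push Not at hcon
    have h1 : (univ : Set D) = ⋃ n, i ⁻¹' {n} := by
      ext d
      simp
    have h2 : (univ : Set D).Countable := by
      rw [h1]
      exact countable_iUnion fun n => (hcon n).countable
    exact not_countable_univ h2
  have hz : ∀ a ∈ A n, ν a = 0 := by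
    intro a ha
    have hc : ∀ d : D, ∃ c : ZMod 2, d ∈ i ⁻¹' {n} → h ⁻¹' a ⊆ half d c := by
      intro d
      by_cases hd : d ∈ i ⁻¹' {n}
      · have hd' : i d = n := hd
        have := (hi d).1
        rw [hd'] at this
        obtain ⟨c, hc⟩ := this a ha
        exact ⟨c, fun _ => hc⟩
      · exact ⟨0, fun h => absurd h hd⟩
    choose c hc using hc
    have h1 := measure_zero μ hn c (h ⁻¹' a) hc
    show μ.map h a = 0
    rw [h.toMeasurableEquiv.map_apply a |> fun e => (show μ.map h a = μ (h ⁻¹' a) from e)]
    exact h1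
  have hU : ν (⋃₀ A n) = 0 := by
    rw [measure_sUnion_null_iff (hA1 n).countable]
    exact hz
  obtain ⟨d, hd⟩ := hn.nonempty
  have hd' : i d = n := hd
  have h5 := (hi d).2
  rw [hd'] at h5
  have h6 : (1 : ℝ≥0∞) ≤ ν (⋃₀ A n)ᶜ := by
    have h7 : ν univ ≤ ν (⋃₀ A n) + ν (⋃₀ A n)ᶜ := by
      rw [← union_compl_self (⋃₀ A n)]
      exact measure_union_le _ _
    rwa [hU, zero_add, measure_univ] at h7
  have h8 := h6.trans_lt h5
  have h9 : ENNReal.ofReal (1 / 2) ≤ 1 := by
    rw [← ENNReal.ofReal_one]
    exact ENNReal.ofReal_le_ofReal (by norm_num)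
  exact absurd (h8.trans_le h9) (lt_irrefl _)

theorem not_classS_ind {X : Type u} (D : Set X) (hD : ¬ D.Countable) : ¬ ClassS (ind D) := by
  rw [← range_toFun]
  exact not_classS_range D hD

end Pool.Agent.Y586.RC
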